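import Pool.Agent.H411R2.WSK.Sound

/-!
The periodic kagome lattice: its vertices are the edges `edg x t` of the periodic honeycomb graph,
`t = 0, 1, 2` being the direction.
-/

set_option autoImplicit false

namespace Pool.Agent.K6.H82.Kag

open Pool.Agent.H411R2.WSK

/-- the displacements of the three directions -/
def d (n : ℕ) (t : Fin 3) : ZMod n × ZMod n := if t = 0 then (0, 0) else if t = 1 then (1, 0) else (0, 1)

lemma d0 (n : ℕ) : d n 0 = 0 := rfl
lemma d1 (n : ℕ) : d n 1 = (1, 0) := by simp [d]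
lemma d2 (n : ℕ) : d n 2 = (0, 1) := by simp [d]

lemma fin3 (t : Fin 3) : t = 0 ∨ t = 1 ∨ t = 2 := by
  revert t; decide

lemma hc_adj {n : ℕ} {x y : ZMod n × ZMod n} :
    (honeycomb n).Adj (Sum.inl x) (Sum.inr y) ↔ ∃ t, y = x - d n t := by
  rw [honeycomb, SimpleGraph.fromRel_adj]
  constructor
  · rintro ⟨-, ⟨z, hz, h⟩ | ⟨z, hz, h⟩⟩
    · obtain rfl := Sum.inl.inj hz
      rcases h with h | h | h
      · exact ⟨0, by rw [d0, sub_zero]; exact Sum.inr.inj h⟩
      · exact ⟨1, by rw [d1]; exact Sum.inr.inj h⟩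
      · exact ⟨2, by rw [d2]; exact Sum.inr.inj h⟩
    · exact absurd hz (by simp)
  · rintro ⟨t, rfl⟩
    refine ⟨by simp, Or.inl ⟨x, rfl, ?_⟩⟩
    rcases fin3 t with rfl | rfl | rfl
    · left; rw [d0, sub_zero]
    · right; left; rw [d1]
    · right; right; rw [d2]

/-- the edge at `(x, A)` in direction `t` -/
def edg (n : ℕ) (x : ZMod n × ZMod n) (t : Fin 3) : (honeycomb n).edgeSet :=
  ⟨s(Sum.inl x, Sum.inr (x - d n t)), by
    rw [SimpleGraph.mem_edgeSet, hc_adj]; exact ⟨t, rfl⟩⟩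

lemma edg_surj {n : ℕ} (e : (honeycomb n).edgeSet) : ∃ x t, edg n x t = e := by
  obtain ⟨e, he⟩ := e
  induction e using Sym2.ind with
  | _ u v =>
    rw [SimpleGraph.mem_edgeSet] at he
    rcases u with x | y
    · rcases v with x' | y'
      · exfalso
        rw [honeycomb, SimpleGraph.fromRel_adj] at he
        obtain ⟨-, ⟨z, hz, h⟩ | ⟨z, hz, h⟩⟩ := he <;> simp at h
      · obtain ⟨t, rfl⟩ := hc_adj.1 he
        exact ⟨x, t, rfl⟩
    · rcases v with x' | y'
      · obtain ⟨t, rfl⟩ := hc_adj.1 he.symm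
        exact ⟨x', t, Subtype.ext Sym2.eq_swap⟩
      · exfalso
        rw [honeycomb, SimpleGraph.fromRel_adj] at he
        obtain ⟨-, ⟨z, hz, h⟩ | ⟨z, hz, h⟩⟩ := he <;> simp at hz

lemma d_inj {n : ℕ} (hn : 2 ≤ n) : Function.Injective (d n) := by
  have h1 : (1 : ZMod n) ≠ 0 := by
    have : Fact (1 < n) := ⟨hn⟩
    exact one_ne_zero
  intro s t h
  rcases fin3 s with rfl | rfl | rfl <;> rcases fin3 t with rfl | rfl | rfl <;>
    simp_all [d, Prod.ext_iff, h1, h1.symm]

lemma edg_eq_iff {n : ℕ} (hn : 2 ≤ n) {x y : ZMod n × ZMod n} {s t : Fin 3} :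
    edg n x s = edg n y t ↔ x = y ∧ s = t := by
  constructor
  · intro h
    have h1 := congrArg Subtype.val h
    simp only [edg] at h1
    rw [Sym2.eq_iff] at h1
    rcases h1 with ⟨h1, h2⟩ | ⟨h1, h2⟩
    · obtain rfl := Sum.inl.inj h1
      refine ⟨rfl, d_inj hn ?_⟩
      have := Sum.inr.inj h2
      exact sub_right_injective this
    · exact absurd h1 (by simp)
  · rintro ⟨rfl, rfl⟩; rfl

lemma kag_adj {n : ℕ} (hn : 2 ≤ n) {x y : ZMod n × ZMod n} {s t : Fin 3} :
    (kagome n).Adj (edg n x s) (edg n y t) ↔ s ≠ t ∧ (x = y ∨ x - d n s = y - d n t) := by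
  rw [kagome, SimpleGraph.lineGraph_adj_iff_exists, ne_eq, edg_eq_iff hn]
  constructor
  · rintro ⟨h1, v, hv, hv'⟩
    simp only [edg, Sym2.mem_iff] at hv hv'
    have key : x = y ∨ x - d n s = y - d n t := by
      rcases hv with rfl | rfl
      · rcases hv' with h | h
        · exact Or.inl (Sum.inl.inj h)
        · exact absurd h (by simp)
      · rcases hv' with h | h
        · exact absurd h (by simp)
        · exact Or.inr (Sum.inr.inj h)
    refine ⟨?_, key⟩
    rintro rfl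
    rcases key with rfl | h
    · exact h1 ⟨rfl, rfl⟩
    · exact h1 ⟨sub_left_injective h, rfl⟩
  · rintro ⟨h1, h2⟩
    refine ⟨fun h => h1 h.2, ?_⟩
    rcases h2 with rfl | h2
    · exact ⟨Sum.inl x, by simp [edg], by simp [edg]⟩
    · exact ⟨Sum.inr (x - d n s), by simp [edg], by simp [edg, h2]⟩

/-- the edges at the vertex `(x, A)` are pairwise adjacent -/
lemma adjA {n : ℕ} (hn : 2 ≤ n) (x : ZMod n × ZMod n) {s t : Fin 3} (h : s ≠ t) :
    (kagome n).Adj (edg n x s) (edg n x t) := (kag_adj hn).2 ⟨h, Or.inl rfl⟩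

/-- the edges at the vertex `(y, B)` are pairwise adjacent -/
lemma adjB {n : ℕ} (hn : 2 ≤ n) (y : ZMod n × ZMod n) {s t : Fin 3} (h : s ≠ t) :
    (kagome n).Adj (edg n (y + d n s) s) (edg n (y + d n t) t) :=
  (kag_adj hn).2 ⟨h, Or.inr (by rw [add_sub_cancel_right, add_sub_cancel_right])⟩

/-- a colouring from its values in the three directions -/
lemma exists_col {n : ℕ} (hn : 2 ≤ n) (f : ZMod n × ZMod n → Fin 3 → Fin 3)
    (hA : ∀ x s t, s ≠ t → f x s ≠ f x t)
    (hB : ∀ y s t, s ≠ t → f (y + d n s) s ≠ f (y + d n t) t) :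
    ∃ c : (kagome n).Coloring (Fin 3), ∀ x t, c (edg n x t) = f x t := by
  choose A T hAT using fun e : (honeycomb n).edgeSet => edg_surj e
  have hval : ∀ x t, f (A (edg n x t)) (T (edg n x t)) = f x t := by
    intro x t
    obtain ⟨h1, h2⟩ := (edg_eq_iff hn).1 (hAT (edg n x t))
    rw [h1, h2]
  refine ⟨SimpleGraph.Coloring.mk (fun e => f (A e) (T e)) ?_, hval⟩
  intro e e' h
  rw [← hAT e, ← hAT e', kag_adj hn] at h
  obtain ⟨h1, h2⟩ := h
  rcases h2 with h2 | h2
  · rw [← h2]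
    exact hA _ _ _ h1
  · have h3 := hB (A e - d n (T e)) (T e) (T e') h1
    rw [sub_add_cancel, h2, sub_add_cancel] at h3
    exact h3

end Pool.Agent.K6.H82.Kag
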