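import Pool.Agent.K6.H82.Kag.Inv
import Pool.Agent.H411R2.WSK.Height
import Pool.Agent.H411R2.WSK.Stokes

/-!
A colouring with sum of signs `-2 k ^ 2` for `n = k + 3 m`.
-/

set_option autoImplicit false

namespace Pool.Agent.K6.H82.Kag

open Pool.Agent.H411R2.WSK Finset

/-- the index that increases -/
def up (a0 a1 b0 b1 : ℤ) : Fin 3 := if b0 = a0 + 1 then 0 else if b1 = a1 + 1 then 1 else 2

/-- the index that does not decrease -/
def stay (a0 a1 b0 b1 : ℤ) : Fin 3 := if b0 = a0 then 0 else if b1 = a1 then 1 else 2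

set_option maxHeartbeats 4000000 in
/-- up triangles -/
lemma tri_up {a0 a1 a2 b0 b1 b2 e0 e1 e2 : ℤ}
    (h1 : (b0 = a0 + 1 ∧ b1 = a1 ∧ b2 = a2) ∨ (b0 = a0 ∧ b1 = a1 + 1 ∧ b2 = a2) ∨
      (b0 = a0 ∧ b1 = a1 ∧ b2 = a2 + 1))
    (h2 : (a0 = e0 + 1 ∧ a1 = e1 ∧ a2 = e2) ∨ (a0 = e0 ∧ a1 = e1 + 1 ∧ a2 = e2) ∨
      (a0 = e0 ∧ a1 = e1 ∧ a2 = e2 + 1))
    (h3 : (e0 = b0 ∧ e1 = b1 - 1 ∧ e2 = b2 - 1) ∨ (e0 = b0 - 1 ∧ e1 = b1 ∧ e2 = b2 - 1) ∨
      (e0 = b0 - 1 ∧ e1 = b1 - 1 ∧ e2 = b2)) :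
    (stay b0 b1 e0 e1 ≠ up e0 e1 a0 a1 ∧ stay b0 b1 e0 e1 ≠ up a0 a1 b0 b1 ∧
      up e0 e1 a0 a1 ≠ up a0 a1 b0 b1) ∧
    sg (stay b0 b1 e0 e1) (up e0 e1 a0 a1) =
      ((b0 - b2) - (a0 - a2)) * ((e1 - e2) - (a1 - a2)) -
        ((b1 - b2) - (a1 - a2)) * ((e0 - e2) - (a0 - a2)) := by
  rcases h1 with ⟨rfl, rfl, rfl⟩ | ⟨rfl, rfl, rfl⟩ | ⟨rfl, rfl, rfl⟩ <;>
  rcases h2 with ⟨rfl, rfl, rfl⟩ | ⟨rfl, rfl, rfl⟩ | ⟨rfl, rfl, rfl⟩ <;>
  rcases h3 with ⟨h3, h4, h5⟩ | ⟨h3, h4, h5⟩ | ⟨h3, h4, h5⟩ <;>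
  first
  | (exfalso; omega)
  | simp [stay, up, sg]

set_option maxHeartbeats 4000000 in
/-- down triangles: `f` is the far corner, `e` the corner `(i, j + 1)` and `b` the corner `(i + 1, j)` -/
lemma tri_down {f0 f1 f2 b0 b1 b2 e0 e1 e2 : ℤ}
    (h1 : (f0 = e0 + 1 ∧ f1 = e1 ∧ f2 = e2) ∨ (f0 = e0 ∧ f1 = e1 + 1 ∧ f2 = e2) ∨
      (f0 = e0 ∧ f1 = e1 ∧ f2 = e2 + 1))
    (h2 : (b0 = f0 + 1 ∧ b1 = f1 ∧ b2 = f2) ∨ (b0 = f0 ∧ b1 = f1 + 1 ∧ b2 = f2) ∨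
      (b0 = f0 ∧ b1 = f1 ∧ b2 = f2 + 1))
    (h3 : (e0 = b0 ∧ e1 = b1 - 1 ∧ e2 = b2 - 1) ∨ (e0 = b0 - 1 ∧ e1 = b1 ∧ e2 = b2 - 1) ∨
      (e0 = b0 - 1 ∧ e1 = b1 - 1 ∧ e2 = b2)) :
    (stay b0 b1 e0 e1 ≠ up f0 f1 b0 b1 ∧ stay b0 b1 e0 e1 ≠ up e0 e1 f0 f1 ∧
      up f0 f1 b0 b1 ≠ up e0 e1 f0 f1) ∧
    sg (stay b0 b1 e0 e1) (up f0 f1 b0 b1) =
      ((f0 - f2) - (e0 - e2)) * ((f1 - f2) - (b1 - b2)) -
        ((f1 - f2) - (e1 - e2)) * ((f0 - f2) - (b0 - b2)) := by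
  rcases h1 with ⟨rfl, rfl, rfl⟩ | ⟨rfl, rfl, rfl⟩ | ⟨rfl, rfl, rfl⟩ <;>
  rcases h2 with ⟨rfl, rfl, rfl⟩ | ⟨rfl, rfl, rfl⟩ | ⟨rfl, rfl, rfl⟩ <;>
  rcases h3 with ⟨h3, h4, h5⟩ | ⟨h3, h4, h5⟩ | ⟨h3, h4, h5⟩ <;>
  first
  | (exfalso; omega)
  | simp [stay, up, sg]

lemma up_shift (a0 a1 b0 b1 u v : ℤ) : up (a0 + u) (a1 + v) (b0 + u) (b1 + v) = up a0 a1 b0 b1 := by
  unfold up
  have h0 : (b0 + u = a0 + u + 1) = (b0 = a0 + 1) := propext ⟨fun h => by linarith, fun h => by linarith⟩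
  have h1 : (b1 + v = a1 + v + 1) = (b1 = a1 + 1) := propext ⟨fun h => by linarith, fun h => by linarith⟩
  simp only [h0, h1]

lemma stay_shift (a0 a1 b0 b1 u v : ℤ) :
    stay (a0 + u) (a1 + v) (b0 + u) (b1 + v) = stay a0 a1 b0 b1 := by
  unfold stay
  simp only [add_left_inj]

theorem exists_height_col (k m : ℤ) (n : ℕ) [NeZero n] (hn : 2 ≤ n) (hk : 0 ≤ k) (hm : 0 ≤ m)
    (h : (n : ℤ) = k + 3 * m) : ∃ c : (kagome n).Coloring (Fin 3), S c = -2 * k ^ 2 := by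
  have hpos : 0 < k + 3 * m := by rw [← h]; positivity
  choose A0 A1 A2 hA using fun i j => exists_H k m hpos i j
  have s1 : ∀ i j, A0 (i + n) j = A0 i j + (k + m) ∧ A1 (i + n) j = A1 i j + m ∧
      A2 (i + n) j = A2 i j + m := by
    intro i j
    have h1 := (hA i j).shift1
    rw [← h] at h1
    exact IsH.unique hpos (hA (i + n) j) h1
  have s2 : ∀ i j, A0 i (j + n) = A0 i j - m ∧ A1 i (j + n) = A1 i j - (k + m) ∧
      A2 i (j + n) = A2 i j - m := by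
    intro i j
    have h1 := (hA i j).shift2
    rw [← h] at h1
    exact IsH.unique hpos (hA i (j + n)) h1
  have st1 := fun i j => IsH.step1 hk hm hpos (hA i j) (hA (i + 1) j)
  have st2 := fun i j => IsH.step2 hk hm hpos (hA i (j + 1)) (hA i j)
  have st3 := fun i j => IsH.step3 hk hm hpos (hA (i + 1) j) (hA i (j + 1))
  let F : Fin 3 → ℤ → ℤ → Fin 3 := fun t i j =>
    if t = 0 then stay (A0 (i + 1) j) (A1 (i + 1) j) (A0 i (j + 1)) (A1 i (j + 1))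
    else if t = 1 then up (A0 i (j + 1)) (A1 i (j + 1)) (A0 i j) (A1 i j)
    else up (A0 i j) (A1 i j) (A0 (i + 1) j) (A1 (i + 1) j)
  have F0 : ∀ i j, F 0 i j = stay (A0 (i + 1) j) (A1 (i + 1) j) (A0 i (j + 1)) (A1 i (j + 1)) :=
    fun i j => rfl
  have F1 : ∀ i j, F 1 i j = up (A0 i (j + 1)) (A1 i (j + 1)) (A0 i j) (A1 i j) := fun i j => rfl
  have F2 : ∀ i j, F 2 i j = up (A0 i j) (A1 i j) (A0 (i + 1) j) (A1 (i + 1) j) := fun i j => rfl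
  have p1 : ∀ t i j, F t (i + n) j = F t i j := by
    intro t i j
    have e1 := s1 i j; have e2 := s1 (i + 1) j; have e3 := s1 i (j + 1)
    have e4 : i + n + 1 = i + 1 + n := by ring
    rcases fin3 t with rfl | rfl | rfl
    · rw [F0, F0, e4, e2.1, e2.2.1, e3.1, e3.2.1, stay_shift]
    · rw [F1, F1, e1.1, e1.2.1, e3.1, e3.2.1, up_shift]
    · rw [F2, F2, e4, e1.1, e1.2.1, e2.1, e2.2.1, up_shift]
  have p2 : ∀ t i j, F t i (j + n) = F t i j := by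
    intro t i j
    have e1 := s2 i j; have e2 := s2 (i + 1) j; have e3 := s2 i (j + 1)
    have e4 : j + n + 1 = j + 1 + n := by ring
    rcases fin3 t with rfl | rfl | rfl
    · rw [F0, F0, e4, e2.1, e2.2.1, e3.1, e3.2.1]
      simp only [sub_eq_add_neg]
      rw [stay_shift]
    · rw [F1, F1, e4, e1.1, e1.2.1, e3.1, e3.2.1]
      simp only [sub_eq_add_neg]
      rw [up_shift]
    · rw [F2, F2, e1.1, e1.2.1, e2.1, e2.2.1]
      simp only [sub_eq_add_neg]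
      rw [up_shift]
  let f : ZMod n × ZMod n → Fin 3 → Fin 3 := fun x t => F t x.1.val x.2.val
  have hf : ∀ t (i j : ℤ), f ((i : ZMod n), (j : ZMod n)) t = F t i j := fun t i j =>
    per_val2 (f := F t) (p1 t) (p2 t) i j
  have hx : ∀ x : ZMod n × ZMod n, x = (((x.1.val : ℤ) : ZMod n), ((x.2.val : ℤ) : ZMod n)) := by
    intro x; ext <;> simp
  have hx1 : ∀ x : ZMod n × ZMod n,
      x + d n 1 = ((((x.1.val : ℤ) + 1 : ℤ) : ZMod n), ((x.2.val : ℤ) : ZMod n)) := by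
    intro x; rw [d1]; ext <;> simp
  have hx2 : ∀ x : ZMod n × ZMod n,
      x + d n 2 = (((x.1.val : ℤ) : ZMod n), (((x.2.val : ℤ) + 1 : ℤ) : ZMod n)) := by
    intro x; rw [d2]; ext <;> simp
  have fx : ∀ x t, f x t = F t (x.1.val : ℤ) (x.2.val : ℤ) := fun x t => rfl
  have fx1 : ∀ x t, f (x + d n 1) t = F t ((x.1.val : ℤ) + 1) (x.2.val : ℤ) := by
    intro x t; rw [hx1, hf]
  have fx2 : ∀ x t, f (x + d n 2) t = F t (x.1.val : ℤ) ((x.2.val : ℤ) + 1) := by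
    intro x t; rw [hx2, hf]
  have fx0 : ∀ x t, f (x + d n 0) t = F t (x.1.val : ℤ) (x.2.val : ℤ) := by
    intro x t; rw [d0, add_zero]
  have U := fun i j => tri_up (st1 i j) (st2 i j) (st3 i j)
  have W := fun i j => tri_down (st1 i (j + 1)) (st2 (i + 1) j) (st3 i j)
  obtain ⟨c, hc⟩ := exists_col hn f
    (by
      intro x s t hst
      obtain ⟨⟨u1, u2, u3⟩, -⟩ := U (x.1.val : ℤ) (x.2.val : ℤ)
      rw [← F0, ← F1] at u1
      rw [← F0, ← F2] at u2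
      rw [← F1, ← F2] at u3
      rcases fin3 s with rfl | rfl | rfl <;> rcases fin3 t with rfl | rfl | rfl <;>
        first
        | exact absurd rfl hst
        | exact u1
        | exact u1.symm
        | exact u2
        | exact u2.symm
        | exact u3
        | exact u3.symm)
    (by
      intro x s t hst
      obtain ⟨⟨u1, u2, u3⟩, -⟩ := W (x.1.val : ℤ) (x.2.val : ℤ)
      rw [← F0, ← F1] at u1
      rw [← F0, ← F2] at u2
      rw [← F1, ← F2] at u3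
      rw [← fx0 x, ← fx1 x] at u1
      rw [← fx0 x, ← fx2 x] at u2
      rw [← fx1 x, ← fx2 x] at u3
      rcases fin3 s with rfl | rfl | rfl <;> rcases fin3 t with rfl | rfl | rfl <;>
        first
        | exact absurd rfl hst
        | exact u1
        | exact u1.symm
        | exact u2
        | exact u2.symm
        | exact u3
        | exact u3.symm)
  refine ⟨c, ?_⟩
  have h1 : S c = ∑ x : ZMod n × ZMod n,
      cell (fun i j => A0 i j - A2 i j) (fun i j => A1 i j - A2 i j) (x.1.val : ℤ) (x.2.val : ℤ) := by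
    unfold S
    refine Finset.sum_congr rfl fun x _ => ?_
    rw [hc, hc, hc, hc, fx0, fx1, fx, fx]
    have u := (U (x.1.val : ℤ) (x.2.val : ℤ)).2
    have w := (W (x.1.val : ℤ) (x.2.val : ℤ)).2
    rw [← F0, ← F1] at u w
    rw [u, w]
    unfold cell
    ring
  rw [h1, sum_torus n (cell (fun i j => A0 i j - A2 i j) (fun i j => A1 i j - A2 i j)),
    stokes n _ _ k 0 0 (-k)]
  · ring
  · intro i j
    have := s1 i j
    linarith [this.1, this.2.2]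
  · intro i j
    have := s1 i j
    linarith [this.2.1, this.2.2]
  · intro i j
    have := s2 i j
    linarith [this.1, this.2.2]
  · intro i j
    have := s2 i j
    linarith [this.2.1, this.2.2]

theorem not_ergodic {n : ℕ} (hn : 3 ≤ n) : ¬ WSKErgodic (kagome n) 3 := by
  intro herg
  have : NeZero n := ⟨by omega⟩
  obtain ⟨c, hc⟩ := exists_dir (n := n) (by omega)
  obtain ⟨c', hc'⟩ := exists_height_col ((n : ℤ) - 3) 1 n (by omega) (by omega) (by norm_num) (by ring)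
  obtain ⟨t, ht⟩ := S_reach (by omega) (herg c c')
  rw [hc, hc'] at ht
  have h2 : (n : ℤ) ^ 2 + ((n : ℤ) - 3) ^ 2 = 2 * (-t) := by linarith
  have h3 : (n : ℤ) ^ 2 + ((n : ℤ) - 3) ^ 2 = 2 * ((n : ℤ) ^ 2 - 3 * n + 4) + 1 := by ring
  omega

end Pool.Agent.K6.H82.Kag
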