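import Pool.Agent.K6.H82.Kag.Basic

/-!
The invariant: the sum of the orientation signs of all vertices of the honeycomb graph modulo 4.
-/

set_option autoImplicit false

namespace Pool.Agent.K6.H82.Kag

open Pool.Agent.H411R2.WSK

/-- orientation sign of three distinct colours `a, b, c`, as a function of the first two -/
def sg (a b : Fin 3) : ℤ := if b = a + 1 then 1 else -1

/-- indicator with values `0, 1` -/
def ind (P : Prop) [Decidable P] : ℤ := if P then 1 else 0

lemma sg_swap : ∀ p q : Fin 3, p ≠ q → ∀ a b : Fin 3, a ≠ b →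
    sg (Equiv.swap p q a) (Equiv.swap p q b) = - sg a b := by decide

lemma sg_odd (a b : Fin 3) : ∃ t : ℤ, sg a b = 2 * t + 1 := by
  unfold sg
  split_ifs
  · exact ⟨0, by norm_num⟩
  · exact ⟨-1, by norm_num⟩

section triple

variable {V : Type*} {G : SimpleGraph V}

open Classical in
/-- three pairwise adjacent vertices and a swap of two colours on a closed set -/
lemma triple {c c' : V → Fin 3} (hc : Proper G c) {p q : Fin 3} (hpq : p ≠ q) {U : Set V}
    (hU : Closed G c p q U) (hs : IsSwap c c' p q U) (e : Fin 3 → V)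
    (he : ∀ i j, i ≠ j → G.Adj (e i) (e j)) :
    ∃ t : ℤ, sg (c' (e 0)) (c' (e 1)) = sg (c (e 0)) (c (e 1)) + 4 * t +
      2 * ∑ i, ind (e i ∈ U ∧ c (e i) = p) := by
  have hinj : Function.Injective fun i => c (e i) := by
    intro i j hij
    by_contra hne
    exact hc _ _ (he i j hne) hij
  by_cases hcov : ∃ i, e i ∈ U
  · obtain ⟨i, hi⟩ := hcov
    have hall : ∀ j, c' (e j) = Equiv.swap p q (c (e j)) := by
      intro j
      by_cases hj : e j ∈ U
      · exact hs.1 _ hj
      · rw [hs.2 _ hj, Equiv.swap_apply_of_ne_of_ne]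
        · intro h
          have hij : i ≠ j := by rintro rfl; exact hj hi
          exact hj (hU.2 _ hi _ (he i j hij) (Or.inl h))
        · intro h
          have hij : i ≠ j := by rintro rfl; exact hj hi
          exact hj (hU.2 _ hi _ (he i j hij) (Or.inr h))
    have hsg : sg (c' (e 0)) (c' (e 1)) = - sg (c (e 0)) (c (e 1)) := by
      rw [hall, hall]
      exact sg_swap p q hpq _ _ (hc _ _ (he 0 1 (by decide)))
    -- exactly one of the three has colour `p`, and it is in `U`
    obtain ⟨k, hk⟩ : ∃ k, c (e k) = p := (Finite.surjective_of_injective hinj) p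
    have hkU : e k ∈ U := by
      by_cases hik : i = k
      · rw [← hik]; exact hi
      · exact hU.2 _ hi _ (he i k hik) (Or.inl hk)
    have hsum : ∑ j, ind (e j ∈ U ∧ c (e j) = p) = 1 := by
      rw [Finset.sum_eq_single k]
      · simp [ind, hk, hkU]
      · intro j _ hjk
        have : ¬ (e j ∈ U ∧ c (e j) = p) := by
          rintro ⟨-, h⟩
          exact hjk (hinj (h.trans hk.symm))
        simp only [ind, if_neg this]
      · intro h; exact absurd (Finset.mem_univ k) h
    obtain ⟨t, ht⟩ := sg_odd (c (e 0)) (c (e 1))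
    refine ⟨-t - 1, ?_⟩
    rw [hsg, hsum, ht]
    ring
  · push Not at hcov
    refine ⟨0, ?_⟩
    have hsum : ∑ j, ind (e j ∈ U ∧ c (e j) = p) = 0 := by
      apply Finset.sum_eq_zero
      intro j _
      have : ¬ (e j ∈ U ∧ c (e j) = p) := fun h => hcov j h.1
      simp only [ind, if_neg this]
    rw [hsum, hs.2 _ (hcov 0), hs.2 _ (hcov 1)]
    ring

end triple

variable {n : ℕ}

/-- the sum of the orientation signs -/
noncomputable def S [NeZero n] (c : (honeycomb n).edgeSet → Fin 3) : ℤ :=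
  ∑ x : ZMod n × ZMod n, (sg (c (edg n (x + d n 0) 0)) (c (edg n (x + d n 1) 1)) +
    sg (c (edg n x 0)) (c (edg n x 1)))

open Classical in
lemma S_swap [NeZero n] (hn : 2 ≤ n) {c c' : (honeycomb n).edgeSet → Fin 3}
    (hc : Proper (kagome n) c) {p q : Fin 3} (hpq : p ≠ q) {U : Set (honeycomb n).edgeSet}
    (hU : Closed (kagome n) c p q U) (hs : IsSwap c c' p q U) : ∃ t : ℤ, S c' = S c + 4 * t := by
  have hB : ∀ x : ZMod n × ZMod n, ∃ t : ℤ,
      sg (c' (edg n (x + d n 0) 0)) (c' (edg n (x + d n 1) 1)) =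
        sg (c (edg n (x + d n 0) 0)) (c (edg n (x + d n 1) 1)) + 4 * t +
        2 * ∑ i, ind (edg n (x + d n i) i ∈ U ∧ c (edg n (x + d n i) i) = p) := fun x =>
    triple hc hpq hU hs (fun i => edg n (x + d n i) i) (fun i j hij => adjB hn x hij)
  have hA : ∀ x : ZMod n × ZMod n, ∃ t : ℤ,
      sg (c' (edg n x 0)) (c' (edg n x 1)) = sg (c (edg n x 0)) (c (edg n x 1)) + 4 * t +
        2 * ∑ i, ind (edg n x i ∈ U ∧ c (edg n x i) = p) := fun x =>
    triple hc hpq hU hs (fun i => edg n x i) (fun i j hij => adjA hn x hij)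
  choose tB hB using hB
  choose tA hA using hA
  have hshift : ∑ x : ZMod n × ZMod n, ∑ i, ind (edg n (x + d n i) i ∈ U ∧ c (edg n (x + d n i) i) = p) =
      ∑ x : ZMod n × ZMod n, ∑ i, ind (edg n x i ∈ U ∧ c (edg n x i) = p) := by
    rw [Finset.sum_comm, Finset.sum_comm (f := fun (x : ZMod n × ZMod n) (i : Fin 3) =>
      ind (edg n x i ∈ U ∧ c (edg n x i) = p))]
    refine Finset.sum_congr rfl fun i _ => ?_
    exact Equiv.sum_comp (Equiv.addRight (d n i))
      (fun x => ind (edg n x i ∈ U ∧ c (edg n x i) = p))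
  refine ⟨∑ x : ZMod n × ZMod n, (tB x + tA x) +
    ∑ x : ZMod n × ZMod n, ∑ i, ind (edg n x i ∈ U ∧ c (edg n x i) = p), ?_⟩
  have h1 : S c' = ∑ x : ZMod n × ZMod n, ((sg (c (edg n (x + d n 0) 0)) (c (edg n (x + d n 1) 1)) +
      4 * tB x + 2 * ∑ i, ind (edg n (x + d n i) i ∈ U ∧ c (edg n (x + d n i) i) = p)) +
      (sg (c (edg n x 0)) (c (edg n x 1)) + 4 * tA x +
        2 * ∑ i, ind (edg n x i ∈ U ∧ c (edg n x i) = p))) := by
    unfold S
    refine Finset.sum_congr rfl fun x _ => ?_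
    rw [hB x, hA x]
  rw [h1]
  unfold S
  simp only [Finset.sum_add_distrib, ← Finset.mul_sum, hshift]
  ring

lemma S_reach [NeZero n] (hn : 2 ≤ n) {c c' : (kagome n).Coloring (Fin 3)}
    (h : Relation.ReflTransGen KempeStep c c') : ∃ t : ℤ, S c' = S c + 4 * t := by
  induction h with
  | refl => exact ⟨0, by ring⟩
  | tail _ hstep ih =>
    rename_i a b _
    obtain ⟨t, ht⟩ := ih
    obtain ⟨p, q, hpq, U, hU, hs⟩ := hstep.closed
    obtain ⟨t', ht'⟩ := S_swap hn (fun v w h => a.valid h) hpq hU hs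
    exact ⟨t + t', by rw [ht', ht]; ring⟩

/-- all edges are coloured with their direction -/
lemma exists_dir [NeZero n] (hn : 2 ≤ n) : ∃ c : (kagome n).Coloring (Fin 3), S c = 2 * n ^ 2 := by
  obtain ⟨c, hc⟩ := exists_col hn (fun _ t => t) (fun _ _ _ h => h) (fun _ _ _ h => h)
  refine ⟨c, ?_⟩
  unfold S
  simp only [hc]
  have h1 : sg 0 1 + sg 0 1 = 2 := by decide
  rw [h1, Finset.sum_const, Finset.card_univ, Fintype.card_prod, ZMod.card]
  simp only [nsmul_eq_mul, Nat.cast_mul]
  ring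

end Pool.Agent.K6.H82.Kag
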