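import Pool.Agent.K6.H82.Kag.Basic
import Pool.Agent.H411R2.WSK.Conn

/-!
The dynamics on the periodic kagome lattice with `n = 2` is ergodic.
-/

set_option autoImplicit false
set_option maxRecDepth 100000
set_option linter.all false

namespace Pool.Agent.K6.H82.Kag

open Pool.Agent.H411R2.WSK

namespace K2

def nbt : List (List ℕ) := [[1,2,5,7],[0,2,6,11],[0,1,3,10],[2,4,5,10],[3,5,8,9],[0,3,4,7],[1,7,8,11],[0,5,6,8],[4,6,7,9],[4,8,10,11],[2,3,9,11],[1,6,9,10]]

def NB : List (List ℕ) := [[],[0],[0,1],[2],[3],[0,3,4],[1],[0,5,6],[4,6,7],[4,8],[2,3,9],[1,6,9,10]]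

def cx (v : ℕ) : ZMod 2 × ZMod 2 := (((v / 3 / 2 : ℕ) : ZMod 2), ((v / 3 % 2 : ℕ) : ZMod 2))

def ct (v : ℕ) : Fin 3 := ⟨v % 3, Nat.mod_lt _ (by norm_num)⟩

def ix (v : ℕ) : (honeycomb 2).edgeSet := edg 2 (cx v) (ct v)

theorem nth_big : ∀ v, 12 ≤ v → nth nbt v = [] := by
  have hnil : ∀ (l : List (List ℕ)) (v : ℕ), l.length ≤ v → nth l v = [] := by
    intro l
    induction l with
    | nil => intro v _; rfl
    | cons x l ih =>
      intro v hv
      cases v with
      | zero => simp at hv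
      | succ v =>
        show nth l v = []
        exact ih v (by simpa using hv)
  intro v hv
  exact hnil nbt v (by simpa [nbt] using hv)

theorem sys : Sys (kagome 2) 12 ix (nth nbt) := by
  have hx : ∀ x : ZMod 2 × ZMod 2, ∀ t : Fin 3, ∃ v < 12, cx v = x ∧ ct v = t := by decide
  refine ⟨?_, ?_, ?_, ?_⟩
  · intro y
    obtain ⟨x, t, rfl⟩ := edg_surj y
    obtain ⟨v, hv, h1, h2⟩ := hx x t
    exact ⟨v, hv, by unfold ix; rw [h1, h2]⟩
  · intro v hv w hw h
    obtain ⟨h1, h2⟩ := (edg_eq_iff le_rfl).1 h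
    have key : ∀ v < 12, ∀ w < 12, cx v = cx w → ct v = ct w → v = w := by decide
    exact key v hv w hw h1 h2
  · intro v w hw
    by_cases hv : v < 12
    · have key : ∀ v < 12, ∀ w ∈ nth nbt v, w < 12 ∧ (ct v ≠ ct w ∧
        (cx v = cx w ∨ cx v - d 2 (ct v) = cx w - d 2 (ct w))) := by decide +kernel
      obtain ⟨h1, h2⟩ := key v hv w hw
      exact ⟨h1, (kag_adj le_rfl).2 h2⟩
    · rw [nth_big v (by omega)] at hw
      simp at hw
  · intro v hv y hy
    obtain ⟨x, t, rfl⟩ := edg_surj y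
    have h1 := (kag_adj le_rfl).1 hy
    have key : ∀ v < 12, ∀ x : ZMod 2 × ZMod 2, ∀ t : Fin 3, (ct v ≠ t ∧
        (cx v = x ∨ cx v - d 2 (ct v) = x - d 2 t)) →
        (nth nbt v).any (fun w => decide (cx w = x ∧ ct w = t)) = true := by
      decide +kernel
    have h2 := key v hv x t h1
    rw [List.any_eq_true] at h2
    obtain ⟨w, hw, h3⟩ := h2
    obtain ⟨h4, h5⟩ := of_decide_eq_true h3
    exact ⟨w, hw, by unfold ix; rw [h4, h5]⟩

noncomputable def inst : Inst := ⟨3, nth nbt, fun _ v => v, fun _ _ => false, [(12, 9586980)]⟩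

def root : Cert := (.br (.br .no (.br .no .no (.br (.br .no (.br .no .no (.br (.br .no (.br .no .no (.br (.br .no (.br .no .no .lf .no) .no .no) .no .no .no) .no) .no .no) .no (.br .no (.br (.br .no .no (.br .no (.br (.sw 0 2 [6,8,9,11]) .no .no .no) .no .no) .no) .no .no .no) .no .no) .no) .no) (.br .no (.br (.br .no .no (.br .no (.br (.br .no (.br .no .no (.sw 1 2 [4,5,7,8]) .no) .no .no) .no .no .no) .no .no) .no) .no (.br .no .no .no .no) .no) .no .no) .no) (.br (.br .no .no (.br (.br .no (.br .no .no (.br .no (.br (.br .no .no (.sw 0 1 [3,4,9,10]) .no) .no .no .no) .no .no) .no) .no .no) .no (.br .no (.br .no .no .no .no) .no .no) .no) .no) .no (.br .no .no .no .no) .no) .no .no) .no) (.br .no (.br (.br .no (.br .no .no (.br (.br .no (.br .no .no (.br (.br .no .no (.br .no (.sw 1 2 [1,2,10,11]) .no .no) .no) .no .no .no) .no) .no .no) (.br .no .no .no .no) .no .no) .no) (.br .no (.br (.br .no .no (.br .no (.br (.br .no .no (.br .no (.sw 1 2 [1,2,10,11]) .no .no) .no) .no .no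 .no) .no .no) .no) (.br .no .no (.br (.br .no (.br .no .no (.br (.sw 0 1 [6,8,9,11]) .no .no .no) .no) .no .no) .no .no .no) .no) .no .no) .no .no) .no) .no (.br (.br .no (.br (.br .no .no (.br .no (.br .no .no (.br (.br .no (.sw 0 2 [3,4,9,10]) .no .no) .no .no .no) .no) .no .no) .no) (.br .no .no (.br .no .no .no .no) .no) .no .no) .no .no) (.br .no .no .no .no) .no .no) .no) .no .no) .no) (.br (.br .no .no (.br (.br .no (.br .no .no (.br .no (.br (.br .no .no (.br (.br .no (.br .no .no (.sw 0 1 [0,1,6,7]) .no) .no .no) .no .no .no) .no) .no .no .no) (.br (.br .no .no .no .no) .no .no .no) .no) .no) (.br .no .no .no .no) .no) (.br (.br .no .no (.br .no (.br (.br .no .no (.br .no (.br (.br .no .no (.sw 0 1 [0,1,6,7]) .no) .no .no .no) .no .no) .no) .no .no .no) (.br (.br .no (.br .no .no (.br (.br .no (.sw 0 1 [0,1,3,4,7,8,10,11]) .no .no) .no .no .no) .no) .no .no) .no .no .no) .no) .no) .no (.br (.br .no (.br .no .no (.br (.br .no (.br (.br .no .no (.sw 0 1 [0,1,3,5,6,8,9,10])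 .no) .no .no .no) .no .no) .no .no .no) .no) (.br .no .no .no .no) .no) .no .no .no) .no) .no .no) .no) .no (.br (.br .no (.br (.br .no .no (.br (.br .no .no .no .no) (.br (.br .no .no (.br .no (.br .no .no (.br (.sw 0 1 [0,2,3,4,6,7,9,11]) .no .no .no) .no) .no .no) .no) .no .no .no) .no .no) .no) .no (.br (.br (.br .no .no (.br .no (.br (.br .no .no (.br .no (.sw 0 1 [0,2,3,5]) .no .no) .no) .no .no .no) .no .no) .no) (.br .no .no (.br (.br .no (.br .no .no (.br (.sw 0 1 [0,2,3,5]) .no .no .no) .no) .no .no) .no .no .no) .no) .no .no) .no .no .no) .no) (.br (.br .no .no .no .no) (.br (.br (.br .no .no (.br .no .no .no .no) .no) (.br .no .no (.br (.br .no .no (.br .no (.br (.sw 0 1 [0,2,4,5,6,8,10,11]) .no .no .no) .no .no) .no) .no .no .no) .no) .no .no) .no .no .no) .no .no) .no) .no .no .no) .no) (.br (.br .no (.br (.br .no (.br .no .no .no .no) (.br .no (.br .no (.br (.br .no .no .no .no) .no .no .no) (.br (.br .no (.br (.br .no .no (.br .no (.sw 0 2 [0,1,6,7]) .no .no) .no)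 .no .no .no) .no .no) .no .no .no) .no) .no .no) .no) .no (.br (.br .no (.br .no (.br (.br .no .no (.br .no (.br (.br .no .no (.sw 0 2 [0,1,3,4,7,8,10,11]) .no) .no .no .no) .no .no) .no) .no .no .no) (.br (.br .no (.br .no .no (.br (.br .no (.sw 0 2 [0,1,6,7]) .no .no) .no .no .no) .no) .no .no) .no .no .no) .no) .no .no) (.br (.br .no (.br .no .no .no .no) (.br .no (.br (.br .no .no (.br (.br .no (.sw 0 1 [4,5,7,8]) .no .no) .no .no .no) .no) .no .no .no) .no .no) .no) .no .no .no) .no .no) .no) .no .no) (.br (.br .no (.br (.br .no .no .no .no) .no (.br (.br (.br .no (.br .no .no .no .no) .no .no) .no (.br .no (.br (.br .no (.br .no .no (.br (.sw 0 1 [1,2,3,5,7,8,9,11]) .no .no .no) .no) .no .no) .no .no .no) .no .no) .no) .no .no .no) .no) (.br (.br .no (.br (.br .no .no .no .no) .no (.br (.br .no (.br .no .no (.br .no (.br (.sw 0 1 [1,2,10,11]) .no .no .no) .no .no) .no) .no .no) .no .no .no) .no) .no .no) (.br (.br (.br .no (.br .no .no (.br (.br .no (.br .no .no (.sw 0 1 [1,2,4,5,6,7,9,10])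 .no) .no .no) .no .no .no) .no) .no .no) .no (.br .no (.br (.br .no .no (.br .no (.br (.sw 0 1 [1,2,10,11]) .no .no .no) .no .no) .no) .no .no .no) .no .no) .no) .no .no .no) .no .no) .no) .no .no .no) .no .no) .no)

instance NBok.dec (nb : ℕ → List ℕ) (N : ℕ) : ∀ (l : List (List ℕ)) (k : ℕ), Decidable (NBok nb N l k)
  | [], _ => isTrue trivial
  | nbk :: rest, k =>
    have := NBok.dec nb N rest (k + 1)
    inferInstanceAs (Decidable (k < N ∧ (∀ u ∈ nbk, u < k ∧ u ∈ nb k) ∧ NBok nb N rest (k + 1)))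

theorem hNB : NBok (nth nbt) 12 NB 0 := by decide +kernel

theorem hcheck : check inst root NB 0 0 1 = true := by decide +kernel

theorem hdig : ∀ v < 12, dig 9586980 v = (ct v).val := by decide +kernel

theorem ergodic : WSKErgodic (kagome 2) 3 := by
  obtain ⟨b, hb⟩ := exists_col (n := 2) le_rfl (fun _ t => t) (fun _ _ _ h => h) (fun _ _ _ h => h)
  have hbp : Proper (kagome 2) (fun e => b e) := fun v w h => b.valid h
  have hfin : Finite (honeycomb 2).edgeSet := by
    have : NeZero 2 := ⟨by norm_num⟩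
    infer_instance
  have hsol : Solved (q := 3) (kagome 2) 12 ix (fun c => Conn (kagome 2) c (fun e => b e)) 0 0 := by
    refine check_sound inst rfl (show (3 : ℕ) ≤ 4 by norm_num) sys ?_ ?_ ?_ ?_ root NB 0 0 1 hNB (by norm_num)
      (by norm_num) (by norm_num) hcheck
    · intro c p q U hc hpq hU h
      exact conn_hswap c p q U hc hpq hU h
    · intro g pi h
      exact absurd h (by simp [inst])
    · intro g pi h
      exact absurd h (by simp [inst])
    · intro k s hks
      simp only [inst, List.mem_singleton, Prod.mk.injEq] at hks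
      obtain ⟨rfl, rfl⟩ := hks
      intro c hc hm _
      have : c = fun e => b e := by
        funext e
        obtain ⟨v, hv, rfl⟩ := sys.surj e
        apply Fin.ext
        rw [← hm.2 v hv, hdig v hv]
        show _ = (b (edg 2 (cx v) (ct v))).val
        rw [hb]
      rw [this]
      exact Conn.refl hbp
  exact ergodic_of_conn (fun c hc => good_of_solved hsol c hc)

end K2

end Pool.Agent.K6.H82.Kag
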